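import Mathlib

/-!
# MP_ceb5ee_gt, Q1 : analytic null-finite sets have Borel null-finite hulls

The main tool is Novikov's separation theorem for countable families of analytic sets.
-/

namespace Pool.Agent.Results.MP_ceb5ee_gt.AnalyticHull

open Set Filter Topology MeasureTheory

universe u

/-- `A` is null-finite: there is a null-sequence `(x k)` such that for every `a` only finitely many
`k` satisfy `a + x k ∈ A`. -/
def NullFinite {X : Type u} [AddCommGroup X] [TopologicalSpace X] (A : Set X) : Prop :=
  ∃ x : ℕ → X, Tendsto x atTop (𝓝 0) ∧ ∀ a : X, {k | a + x k ∈ A}.Finite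

/-! ### Novikov's separation theorem -/

/-- The sets `s n` are contained in Borel sets with empty intersection. -/
def Sep {α : Type u} [MeasurableSpace α] (s : ℕ → Set α) : Prop :=
  ∃ B : ℕ → Set α, (∀ n, MeasurableSet (B n)) ∧ (∀ n, s n ⊆ B n) ∧ ⋂ n, B n = ∅

theorem Sep.split {α : Type u} [MeasurableSpace α] {s : ℕ → Set α} (m : ℕ) (r : ℕ → ℕ → Set α)
    (h1 : ∀ j n, n ≠ m → r j n = s n) (h2 : s m ⊆ ⋃ j, r j m) (h : ∀ j, Sep (r j)) : Sep s := by
  classical
  choose B hB hrB hBe using h
  refine ⟨fun n => if n = m then ⋃ j, B j m else ⋂ j, B j n, ?_, ?_, ?_⟩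
  · intro n
    dsimp only
    split_ifs
    · exact MeasurableSet.iUnion fun j => hB j m
    · exact MeasurableSet.iInter fun j => hB j n
  · intro n
    dsimp only
    split_ifs with hn
    · subst hn
      exact h2.trans (Set.iUnion_mono fun j => hrB j n)
    · refine Set.subset_iInter fun j => ?_
      rw [← h1 j n hn]
      exact hrB j n
  · rw [Set.eq_empty_iff_forall_notMem]
    intro x hx
    rw [Set.mem_iInter] at hx
    have hm := hx m
    simp only [if_true] at hm
    obtain ⟨j, hj⟩ := Set.mem_iUnion.1 hm
    have : x ∈ ⋂ n, B j n := by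
      rw [Set.mem_iInter]
      intro n
      by_cases hn : n = m
      · rw [hn]; exact hj
      · have h3 := hx n
        simp only [hn, if_false] at h3
        exact Set.mem_iInter.1 h3 j
    rw [hBe j] at this
    exact this

/-- Cylinders: one sequence `z` encodes a sequence of points of the Baire space. -/
def C (z : ℕ → ℕ) (t n : ℕ) : Set (ℕ → ℕ) :=
  {y | ∀ i, Nat.pair n i < t → y i = z (Nat.pair n i)}

theorem C_congr {z z' : ℕ → ℕ} {t : ℕ} (h : ∀ i < t, z i = z' i) (n : ℕ) : C z t n = C z' t n := by
  ext y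
  constructor
  · intro hy i hi
    rw [hy i hi, h _ hi]
  · intro hy i hi
    rw [hy i hi, h _ hi]

theorem step {α : Type u} [MeasurableSpace α] (f : ℕ → (ℕ → ℕ) → α) (z : ℕ → ℕ) (t : ℕ)
    (h : ¬ Sep fun n => f n '' C z t n) :
    ∃ j, ¬ Sep fun n => f n '' C (Function.update z t j) (t + 1) n := by
  by_contra hcon
  push Not at hcon
  apply h
  refine Sep.split t.unpair.1 (fun j n => f n '' C (Function.update z t j) (t + 1) n) ?_ ?_ hcon
  · intro j n hn
    congr 1
    ext y
    constructor
    · intro hy i hi
      have h1 := hy i (Nat.lt_succ_of_lt hi)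
      rwa [Function.update_of_ne hi.ne] at h1
    · intro hy i hi
      have h2 : Nat.pair n i ≠ t := by
        rintro rfl
        exact hn (by rw [Nat.unpair_pair])
      rw [Function.update_of_ne h2]
      exact hy i (by omega)
  · rintro _ ⟨y, hy, rfl⟩
    refine Set.mem_iUnion.2 ⟨y t.unpair.2, y, ?_, rfl⟩
    intro i hi
    by_cases h2 : Nat.pair t.unpair.1 i = t
    · rw [h2, Function.update_self]
      have h3 : i = t.unpair.2 := by
        have := congrArg Nat.unpair h2
        rw [Nat.unpair_pair] at this
        exact congrArg Prod.snd this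
      rw [h3]
    · rw [Function.update_of_ne h2]
      exact hy i (by omega)

theorem novikov_range {α : Type u} [TopologicalSpace α] [T2Space α] [MeasurableSpace α]
    [OpensMeasurableSpace α] (f : ℕ → (ℕ → ℕ) → α) (hf : ∀ n, Continuous (f n))
    (h : ⋂ n, Set.range (f n) = ∅) : Sep fun n => Set.range (f n) := by
  classical
  by_contra hcon
  -- the recursion
  have hstep : ∀ (t : ℕ) (z : ℕ → ℕ), ∃ j, (¬ Sep fun n => f n '' C z t n) →
      ¬ Sep fun n => f n '' C (Function.update z t j) (t + 1) n := by
    intro t z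
    by_cases hz : Sep fun n => f n '' C z t n
    · exact ⟨0, fun h => absurd hz h⟩
    · obtain ⟨j, hj⟩ := step f z t hz
      exact ⟨j, fun _ => hj⟩
  choose g hg using hstep
  obtain ⟨Z, hZ0, hZs⟩ : ∃ Z : ℕ → ℕ → ℕ, Z 0 = 0 ∧
      ∀ t, Z (t + 1) = Function.update (Z t) t (g t (Z t)) :=
    ⟨fun t => Nat.rec 0 (fun t z => Function.update z t (g t z)) t, rfl, fun t => rfl⟩
  have hns : ∀ t, ¬ Sep fun n => f n '' C (Z t) t n := by
    intro t
    induction t with
    | zero =>
      have : (fun n => f n '' C (Z 0) 0 n) = fun n => Set.range (f n) := by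
        funext n
        have h1 : C (Z 0) 0 n = univ := by
          rw [Set.eq_univ_iff_forall]
          intro y i hi
          exact absurd hi (Nat.not_lt_zero _)
        rw [h1, Set.image_univ]
      rw [this]
      exact hcon
    | succ t ih =>
      rw [hZs]
      exact hg t (Z t) ih
  let z : ℕ → ℕ := fun i => Z (i + 1) i
  have hz : ∀ t, ∀ i < t, Z t i = z i := by
    intro t
    induction t with
    | zero => intro i hi; exact absurd hi (Nat.not_lt_zero _)
    | succ t ih =>
      intro i hi
      rcases Nat.lt_succ_iff_lt_or_eq.1 hi with h1 | rfl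
      · rw [hZs, Function.update_of_ne h1.ne]
        exact ih i h1
      · rfl
  have hnz : ∀ t, ¬ Sep fun n => f n '' C z t n := by
    intro t
    have : (fun n => f n '' C z t n) = fun n => f n '' C (Z t) t n := by
      funext n
      rw [C_congr (fun i hi => (hz t i hi).symm) n]
    rw [this]
    exact hns t
  let y : ℕ → ℕ → ℕ := fun n i => z (Nat.pair n i)
  -- neighbourhoods contain cylinders
  have hnb : ∀ (n : ℕ) (U : Set α), IsOpen U → f n (y n) ∈ U →
      ∃ T, ∀ t, T ≤ t → f n '' C z t n ⊆ U := by
    intro n U hU hmem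
    obtain ⟨F, u, hu, hsub⟩ := isOpen_pi_iff.1 (hU.preimage (hf n)) (y n) hmem
    refine ⟨(F.image fun i => Nat.pair n i).sup id + 1, ?_⟩
    rintro t ht _ ⟨w, hw, rfl⟩
    apply hsub
    intro i hi
    have h1 : Nat.pair n i ≤ (F.image fun i => Nat.pair n i).sup id :=
      Finset.le_sup (f := id) (Finset.mem_image_of_mem _ hi)
    rw [hw i (by omega)]
    exact (hu i hi).2
  -- two different values
  obtain ⟨n, m, hnm⟩ : ∃ n m, f n (y n) ≠ f m (y m) := by
    by_contra hall
    push Not at hall
    have : f 0 (y 0) ∈ ⋂ n, Set.range (f n) := by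
      rw [Set.mem_iInter]
      intro n
      exact ⟨y n, hall n 0⟩
    rw [h] at this
    exact this
  obtain ⟨U, V, hU, hV, hxU, hxV, hUV⟩ := t2_separation hnm
  obtain ⟨T, hT⟩ := hnb n U hU hxU
  obtain ⟨T', hT'⟩ := hnb m V hV hxV
  have hne : n ≠ m := fun h => hnm (by rw [h])
  apply hnz (max T T')
  refine ⟨fun k => if k = n then U else if k = m then V else univ, ?_, ?_, ?_⟩
  · intro k
    dsimp only
    split_ifs
    · exact hU.measurableSet
    · exact hV.measurableSet
    · exact MeasurableSet.univ
  · intro k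
    dsimp only
    split_ifs with h1 h2
    · rw [h1]; exact hT _ (le_max_left _ _)
    · rw [h2]; exact hT' _ (le_max_right _ _)
    · exact Set.subset_univ _
  · rw [Set.eq_empty_iff_forall_notMem]
    intro x hx
    rw [Set.mem_iInter] at hx
    have h1 := hx n
    have h2 := hx m
    simp only [if_true] at h1
    simp only [Ne.symm hne, if_false, if_true] at h2
    exact (Set.disjoint_left.1 hUV) h1 h2

/-- Novikov's separation theorem. -/
theorem novikov {α : Type u} [TopologicalSpace α] [T2Space α] [MeasurableSpace α]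
    [OpensMeasurableSpace α] (A : ℕ → Set α) (hA : ∀ n, AnalyticSet (A n))
    (h : ⋂ n, A n = ∅) : Sep A := by
  classical
  by_cases hex : ∃ n, A n = ∅
  · obtain ⟨n, hn⟩ := hex
    refine ⟨fun k => if k = n then ∅ else univ, ?_, ?_, ?_⟩
    · intro k
      dsimp only
      split_ifs
      · exact MeasurableSet.empty
      · exact MeasurableSet.univ
    · intro k
      dsimp only
      split_ifs with h1
      · rw [h1, hn]
      · exact Set.subset_univ _
    · rw [Set.eq_empty_iff_forall_notMem]
      intro x hx
      have h1 := Set.mem_iInter.1 hx n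
      simp at h1
  · push Not at hex
    have h1 : ∀ n, ∃ f : (ℕ → ℕ) → α, Continuous f ∧ Set.range f = A n := by
      intro n
      have h2 := hA n
      rw [AnalyticSet] at h2
      rcases h2 with h2 | h2
      · exact absurd h2 (hex n).ne_empty
      · exact h2
    choose f hf hfA using h1
    have h3 : A = fun n => Set.range (f n) := funext fun n => (hfA n).symm
    rw [h3]
    apply novikov_range f hf
    rw [← h, h3]

/-- `Q1`: every analytic null-finite set in a Polish group is contained in a Borel null-finite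
set. -/
theorem result (X : Type u) [AddCommGroup X] [TopologicalSpace X] [IsTopologicalAddGroup X]
    [PolishSpace X] (A : Set X) (hA : AnalyticSet A) (hN : NullFinite A) :
    ∃ B : Set X, MeasurableSet[borel X] B ∧ NullFinite B ∧ A ⊆ B := by
  let _ : MeasurableSpace X := borel X
  have _ : BorelSpace X := ⟨rfl⟩
  obtain ⟨x, hx, hfin⟩ := hN
  -- the decreasing analytic sets
  let A' : ℕ → Set X := fun N => ⋃ n : ℕ, (fun a => a - x (N + n)) '' A
  have hA' : ∀ N, AnalyticSet (A' N) := fun N =>
    AnalyticSet.iUnion fun n => hA.image_of_continuous (continuous_id.sub continuous_const)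
  have hempty : ⋂ N, A' N = ∅ := by
    rw [Set.eq_empty_iff_forall_notMem]
    intro a ha
    rw [Set.mem_iInter] at ha
    obtain ⟨K, hK⟩ := (hfin a).bddAbove
    obtain ⟨n, b, hb, hba⟩ := Set.mem_iUnion.1 (ha (K + 1))
    have h1 : a + x (K + 1 + n) ∈ A := by
      have : b = a + x (K + 1 + n) := by
        rw [← hba]; simp
      rw [← this]; exact hb
    have h2 : K + 1 + n ≤ K := hK h1
    omega
  obtain ⟨B, hB, hAB, hBe⟩ := novikov A' hA' hempty
  let D : ℕ → Set X := fun n => ⋂ N ∈ Set.Iic n, B N
  have hD : ∀ n, MeasurableSet (D n) := fun n =>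
    MeasurableSet.biInter (Set.to_countable _) fun N _ => hB N
  refine ⟨⋂ n, (fun b => b - x n) ⁻¹' D n, ?_, ⟨x, hx, ?_⟩, ?_⟩
  · exact MeasurableSet.iInter fun n =>
      (continuous_id.sub continuous_const).measurable (hD n)
  · intro a
    by_contra hinf
    have hinf' : {k | a + x k ∈ ⋂ n, (fun b => b - x n) ⁻¹' D n}.Infinite := hinf
    have h1 : a ∈ ⋂ N, B N := by
      rw [Set.mem_iInter]
      intro N
      obtain ⟨k, hk, hNk⟩ := hinf'.exists_gt N
      have h2 := Set.mem_iInter.1 hk k
      have h3 : a + x k - x k ∈ D k := h2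
      rw [add_sub_cancel_right] at h3
      exact Set.mem_iInter₂.1 h3 N (le_of_lt hNk)
    rw [hBe] at h1
    exact h1
  · intro a ha
    rw [Set.mem_iInter]
    intro n
    change a - x n ∈ D n
    refine Set.mem_iInter₂.2 fun N hN => hAB N ?_
    have hNn : N ≤ n := hN
    refine Set.mem_iUnion.2 ⟨n - N, a, ha, ?_⟩
    change a - x (N + (n - N)) = a - x n
    rw [Nat.add_sub_cancel' hNn]

end Pool.Agent.Results.MP_ceb5ee_gt.AnalyticHull
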